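import Mathlib

set_option autoImplicit false
open Set Metric MeasureTheory Filter Topology Complex

namespace Pool.Agent.H.MP_7cef9e_pr

abbrev D : Set ℂ := ball (2 * I) 1

lemma D_mem {z : ℂ} (hz : z ∈ D) : 1 ≤ ‖z‖ ∧ ‖z‖ ≤ 3 ∧ 0 < z.im := by
  rw [mem_ball, dist_eq_norm] at hz
  have a := norm_sub_norm_le z (2 * I)
  have b := norm_sub_norm_le (2 * I) z
  have c := abs_le.1 (abs_im_le_norm (z - 2 * I))
  rw [norm_sub_rev] at b
  simp at a b c
  exact ⟨by linarith, by linarith, by linarith [c.1]⟩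

lemma free {F : ℂ → ℂ} (hF : Differentiable ℂ F) {T : ℝ} (hT : 0 < T)
    (h0 : ∀ z ∈ ball (0:ℂ) 8, F z ≠ 0) (h : ∀ z ∈ ball (0:ℂ) 8, ‖F z‖ ≤ Real.exp T * ‖F 0‖)
    {z : ℂ} (hz : ‖z‖ ≤ 3) : ‖deriv F z / F z‖ ≤ 2 * T := by
  obtain ⟨g, g0, hg⟩ := (DifferentiableOn.isExactOn_ball (f := fun z => deriv F z / F z)
    (c := 0) (r := 8) (hF.deriv.differentiableOn.div hF.differentiableOn h0)).with_val_at 0 0
  have gd : DifferentiableOn ℂ g (ball 0 8) := fun z hz =>
    (hg z hz).differentiableAt.differentiableWithinAt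
  have e : ∀ z ∈ ball (0:ℂ) 8, F z * exp (-g z) = F 0 := fun z hz => by
    have := isOpen_ball.is_const_of_deriv_eq_zero (𝕜 := ℂ) (convex_ball (0:ℂ) 8).isPreconnected
      (f := fun z => F z * exp (-g z)) (by fun_prop) (fun z hz => by
        have := h0 z hz
        rw [((hF z).hasDerivAt.fun_mul (hg z hz).fun_neg.cexp).deriv]
        simp only [Pi.neg_apply, Pi.zero_apply]; field_simp; ring) hz (mem_ball_self (by norm_num))
    simpa [g0] using this
  have b : MapsTo g (ball 0 8) {z | z.re ≤ T} := fun z hz => by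
    have a := h z hz
    rw [← e z hz, norm_mul, norm_exp, ← mul_assoc, mul_right_comm, ← Real.exp_add,
      le_mul_iff_one_le_left (norm_pos_iff.2 (h0 z hz)), Real.one_le_exp_iff, neg_re] at a
    exact sub_nonneg.1 a
  have s : closedBall z 1 ⊆ ball 0 8 := closedBall_subset_ball' (by simp; linarith)
  rw [← (hg z (s (mem_closedBall_self one_pos.le))).deriv, ← div_one (2 * T)]
  refine norm_deriv_le_of_forall_mem_sphere_norm_le one_pos
    ((gd.mono (by rwa [closure_ball _ one_ne_zero])).diffContOnCl) fun u hu => ?_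
  refine (borelCaratheodory_zero hT gd b (by norm_num) (s (sphere_subset_closedBall hu)) g0).trans ?_
  have : ‖u‖ ≤ 4 := by
    have := norm_sub_norm_le u z
    rw [mem_sphere, dist_eq_norm] at hu; linarith
  rw [div_le_iff₀ (by linarith)]
  nlinarith

lemma kern : ∃ c : NNReal, volume D ≤ c ∧ ∀ ζ : ℂ, ‖ζ‖ < 8 → ∫⁻ z in D, ‖(z - ζ)⁻¹‖ₑ ≤ c := by
  have h : IntegrableOn (fun z : ℂ => z⁻¹) (ball 0 11) :=
    integrableOn_ball_of_norm_le_rpow (C := 1) (α := 1) (by simp) (by simp)
      (.of_forall fun z => by simp [Real.rpow_neg_one]) (by fun_prop)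
  refine ⟨(volume D + ∫⁻ z in ball (0:ℂ) 11, ‖z⁻¹‖ₑ).toNNReal, ?_, fun ζ hζ => ?_⟩ <;>
    rw [ENNReal.coe_toNNReal (ENNReal.add_ne_top.2 ⟨measure_ball_lt_top.ne, h.2.ne⟩)]
  · exact le_self_add
  refine le_trans ?_ le_add_self
  refine le_trans (lintegral_mono_set fun z hz => ?_)
    ((measurePreserving_sub_right volume ζ).setLIntegral_comp_preimage (f := fun z : ℂ => ‖z⁻¹‖ₑ)
      measurableSet_ball (by fun_prop)).le
  have := (D_mem hz).2.1
  rw [mem_preimage, mem_ball_zero_iff]
  linarith [norm_sub_le z ζ]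

lemma main : ∃ c : NNReal, ∀ (k : ℕ) (F : ℂ → ℂ) (B : ℝ), Differentiable ℂ F → F 0 ≠ 0 →
    (∀ z ∈ sphere (0:ℂ) 24, ‖F z‖ ≤ B) → B < 2 ^ k * ‖F 0‖ →
    ∫⁻ z in D, ‖deriv F z / F z‖ₑ ≤ c * k := by
  obtain ⟨c, c1, c2⟩ := kern
  refine ⟨2 * c, fun k => ?_⟩
  have mx : ∀ {F : ℂ → ℂ} {B : ℝ}, Differentiable ℂ F → (∀ z ∈ sphere (0:ℂ) 24, ‖F z‖ ≤ B) →
      ∀ z ∈ ball (0:ℂ) 8, ‖F z‖ ≤ B := fun hF hB z hz =>
    norm_le_of_forall_mem_frontier_norm_le (U := ball 0 24) isBounded_ball hF.diffContOnCl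
      (by rwa [frontier_ball _ (by norm_num)])
      (subset_closure (ball_subset_ball (by norm_num) hz))
  induction k with
  | zero =>
    intro F B hF _ hB h
    have := mx hF hB 0 (mem_ball_self (by norm_num))
    simp at h; linarith
  | succ k ih =>
    intro F B hF h0 hB h
    by_cases hz : ∀ z ∈ ball (0:ℂ) 8, F z ≠ 0
    · have : ∀ z ∈ D, ‖deriv F z / F z‖ₑ ≤ (2 * (k + 1) : NNReal) := fun z hz' => by
        rw [enorm_le_coe, ← NNReal.coe_le_coe]
        refine free hF (T := k + 1) (by positivity) hz (fun u hu => (mx hF hB u hu).trans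
          (h.le.trans ?_)) (D_mem hz').2.1
        rw [← Nat.cast_succ, ← Real.exp_one_pow]
        gcongr
        linarith [Real.add_one_le_exp 1]
      refine (setLIntegral_mono' measurableSet_ball this).trans ?_
      rw [setLIntegral_const]
      refine (mul_le_mul_right c1 _).trans (le_of_eq ?_)
      push_cast; ring
    · push Not at hz
      obtain ⟨ζ, z1, z2⟩ := hz
      rw [mem_ball_zero_iff] at z1
      have hG : Differentiable ℂ (dslope F ζ) := differentiableOn_univ.1
        ((differentiableOn_dslope univ_mem).2 hF.differentiableOn)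
      have e : ∀ z, F z = (z - ζ) * dslope F ζ z := fun z => by
        rw [← smul_eq_mul, sub_smul_dslope, z2, sub_zero]
      generalize dslope F ζ = G at *
      obtain rfl : F = fun z => (z - ζ) * G z := funext e
      simp only [norm_mul, zero_sub, norm_neg] at hB h
      have G0 : G 0 ≠ 0 := fun k => h0 (by simp [k])
      have := ih G (B / 16) hG G0 (fun z hz => by
        have := hB z hz
        have := norm_sub_norm_le z ζ
        rw [mem_sphere_zero_iff_norm] at hz
        rw [le_div_iff₀ (by norm_num)]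
        nlinarith [norm_nonneg (G z)]) (by
        have : 0 ≤ 2 ^ k * ‖G 0‖ := by positivity
        rw [div_lt_iff₀ (by norm_num)]
        rw [pow_succ] at h
        nlinarith)
      calc _ ≤ ∫⁻ z in D, ‖(z - ζ)⁻¹‖ₑ + ‖deriv G z / G z‖ₑ := lintegral_mono fun z => by
            by_cases k : (z - ζ) * G z = 0
            · simp [k]
            rw [mul_eq_zero, not_or] at k
            refine le_trans (le_of_eq ?_) (enorm_add_le _ _)
            rw [(((hasDerivAt_id' z).sub_const ζ).fun_mul (hG z).hasDerivAt).deriv]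
            congr 1
            have := k.1; have := k.2
            field_simp
        _ ≤ _ := by
            rw [lintegral_add_left (by fun_prop)]
            refine (add_le_add (c2 ζ z1) this).trans ?_
            push_cast
            rw [mul_add, add_comm, mul_one, two_mul]
            gcongr; exact le_self_add

lemma no (F : ℕ → ℂ → ℂ) (M : ℝ) (hF : ∀ n, Differentiable ℂ (F n)) (h0 : ∀ n, F n 0 = 1)
    (hM : ∀ n z, ‖F n z‖ ≤ Real.exp ((n + 1) * M * ‖z‖)) :
    ¬ ∀ z : ℂ, 0 < z.im → Tendsto (fun n : ℕ => deriv (F n) z / ((n + 1) * F n z)) atTop (𝓝 z) := by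
  intro h
  obtain ⟨c, hc⟩ := main
  obtain ⟨m, hm⟩ := exists_nat_gt (max 0 (48 * M))
  rw [max_lt_iff] at hm
  have key : ∀ X : ℕ, 0 < X → (X:ENNReal) * volume D ≤ c * m := fun X hX => by
    have X0 : (0:ℝ) < X := by positivity
    have a : ∀ n : ℕ, ∫⁻ z in D, ‖X * (deriv (F n) (X * z) / ((n + 1) * F n (X * z)))‖ₑ ≤
        X * (c * m) := fun n => by
      have := hc ((n + 1) * (X * m)) (fun z => F n (X * z)) _ (by fun_prop) (by simp [h0])
        (fun z hz => (hM n _).trans_eq (by
          rw [norm_mul, mem_sphere_zero_iff_norm.1 hz, norm_natCast])) (by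
          simp only [mul_zero, h0, norm_one, mul_one]
          rw [← Real.exp_log two_pos, ← Real.exp_nat_mul, Real.exp_lt_exp]
          push_cast
          rw [mul_assoc, mul_assoc]
          refine mul_lt_mul_of_pos_left ?_ (by positivity)
          nlinarith [mul_pos X0 hm.1, Real.log_two_gt_d9])
      have n0 : ((n:ENNReal) + 1) ≠ 0 := by simp
      have n1 : ((n:ENNReal) + 1) ≠ ⊤ := by simp
      rw [← ENNReal.mul_le_mul_iff_right n0 n1, ← lintegral_const_mul' _ _ n1]
      refine le_trans (le_of_eq (lintegral_congr fun z => ?_)) (this.trans_eq (by push_cast; ring))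
      rw [deriv_comp_mul_left, smul_eq_mul,
        show ((n:ENNReal) + 1) = ‖((n:ℂ) + 1)‖ₑ by
          rw [← Nat.cast_succ, ← Nat.cast_succ, ← ofReal_norm, norm_natCast, ENNReal.ofReal_natCast],
        ← enorm_mul]
      congr 1
      have : (n:ℂ) + 1 ≠ 0 := by exact_mod_cast n.succ_ne_zero
      field_simp
    have X1 : (X:ENNReal) ≠ 0 := by simpa using hX.ne'
    rw [← ENNReal.mul_le_mul_iff_right X1 (by simp), ← mul_assoc, ← setLIntegral_const]
    refine le_trans (setLIntegral_mono' measurableSet_ball fun z hz => ?_) ((lintegral_liminf_le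
      (f := fun n z => ‖X * (deriv (F n) (X * z) / ((n + 1) * F n (X * z)))‖ₑ) fun n => ?_).trans (liminf_le_of_frequently_le' (f := atTop) (.of_forall a)))
    · rw [((h (X * z) (by simpa using mul_pos X0 (D_mem hz).2.2)).const_mul
        (X:ℂ)).enorm.liminf_eq, ← ofReal_norm, ← ENNReal.ofReal_natCast,
        ← ENNReal.ofReal_mul X0.le]
      refine ENNReal.ofReal_le_ofReal ?_
      simp only [norm_mul, norm_natCast]
      gcongr
      exact le_mul_of_one_le_right X0.le (D_mem hz).1
    · have := (hF n).continuous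
      have := (hF n).deriv.continuous
      fun_prop
  obtain ⟨X, hX⟩ := ENNReal.exists_nat_mul_gt (a := volume D) (b := c * m)
    (measure_ball_pos _ _ one_pos).ne' (by finiteness)
  exact (hX.trans_le (by gcongr; omega)).not_ge (key (X + 1) X.succ_pos)

lemma emp {K : Type} [MetricSpace K] [CompactSpace K] [MeasurableSpace K] [BorelSpace K]
    (ν : Measure K) [IsProbabilityMeasure ν] : ∃ e : ℕ → K, ∀ g : C(K, ℝ),
    Tendsto (fun n : ℕ => (∑ j ∈ Finset.range n, g (e j)) / n) atTop (𝓝 (∫ x, g x ∂ν)) := by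
  obtain ⟨S, S1, S2⟩ := TopologicalSpace.exists_countable_dense C(K, ℝ)
  have hi : ∀ g : C(K, ℝ), Integrable g ν := fun g =>
    g.continuous.integrable_of_hasCompactSupport (.of_compactSpace _)
  have : ∀ᵐ e ∂(Measure.infinitePi fun _ : ℕ => ν), ∀ g ∈ S,
      Tendsto (fun n : ℕ => (∑ j ∈ Finset.range n, g (e j)) / n) atTop (𝓝 (∫ x, g x ∂ν)) := by
    refine (ae_ball_iff S1).2 fun g _ => ?_
    have m := fun j => measurePreserving_eval_infinitePi (fun _ : ℕ => ν) j
    have := ProbabilityTheory.strong_law_ae_real (μ := Measure.infinitePi fun _ : ℕ => ν)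
      (fun j e => g (e j)) ((m 0).integrable_comp_of_integrable (hi g))
      (fun _ _ h => (ProbabilityTheory.iIndepFun_infinitePi (X := fun _ x => g x)
        fun _ => by fun_prop).indepFun h) fun j => ProbabilityTheory.IdentDistrib.comp (u := g)
        (f := fun e : ℕ → K => e j) (g := fun e : ℕ → K => e 0)
        ⟨(m j).aemeasurable, (m 0).aemeasurable, (m j).map_eq.trans (m 0).map_eq.symm⟩ (by fun_prop)
    rwa [show ∫ e, g (e 0) ∂(Measure.infinitePi fun _ : ℕ => ν) = ∫ x, g x ∂ν by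
      rw [← integral_map (m 0).aemeasurable (by fun_prop), (m 0).map_eq]] at this
  obtain ⟨e, he⟩ := this.exists
  refine ⟨e, fun g => Metric.tendsto_nhds.2 fun ε h => ?_⟩
  obtain ⟨f, f1, f2⟩ := S2.exists_dist_lt g (show 0 < ε / 3 by positivity)
  have a : ∀ x, ‖g x - f x‖ ≤ dist g f := fun x =>
    dist_eq_norm (g x) (f x) ▸ ContinuousMap.dist_apply_le_dist x
  filter_upwards [Metric.tendsto_nhds.1 (he f f1) _ (show 0 < ε / 3 by positivity),
    eventually_gt_atTop 0] with n h1 h2
  have b := norm_integral_le_of_norm_le_const (μ := ν) (.of_forall a)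
  rw [integral_sub (hi g) (hi f), probReal_univ, mul_one] at b
  have c : ‖(∑ j ∈ Finset.range n, g (e j)) / n - (∑ j ∈ Finset.range n, f (e j)) / n‖ ≤
      dist g f := by
    rw [← sub_div, ← Finset.sum_sub_distrib, norm_div, Real.norm_natCast,
      div_le_iff₀' (by positivity)]
    simpa using norm_sum_le_of_le (Finset.range n) fun j _ => a (e j)
  rw [Real.dist_eq, abs_lt] at *
  rw [Real.norm_eq_abs, abs_le] at b c
  constructor <;> linarith [b.1, b.2, c.1, c.2, h1.1, h1.2]

lemma tr {n : ℕ} (U : Matrix.unitaryGroup (Fin (n + 1)) ℂ) (e : Fin (n + 1) → ℝ) (z : ℂ) :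
    (U.1 * Matrix.diagonal (Pi.single 0 z) * star U.1 * Matrix.diagonal fun j => (e j : ℂ)).trace =
      z * (∑ j, e j * ‖U.1 j 0‖ ^ 2 : ℝ) := by
  simp only [Matrix.trace, Matrix.diag_apply, Matrix.mul_diagonal]
  simp only [Matrix.mul_apply, Matrix.diagonal_apply, Matrix.star_apply]
  push_cast
  rw [Finset.mul_sum]
  refine Finset.sum_congr rfl fun j _ => ?_
  rw [Finset.sum_eq_single 0 (fun b _ hb => by simp [hb]) (by simp), ← mul_conj']
  simp; ring

lemma col {n : ℕ} (U : Matrix.unitaryGroup (Fin (n + 1)) ℂ) : ∑ j, ‖U.1 j 0‖ ^ 2 = 1 := by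
  have := congrFun (congrFun U.2.1 0) 0
  simp only [Matrix.mul_apply, Matrix.star_apply, Matrix.one_apply_eq, star_def, conj_mul'] at this
  exact_mod_cast this

end Pool.Agent.H.MP_7cef9e_pr
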